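import Pool.Agent.S07079

/-!
# MP_b9dfd5_co: two-cycles of the gamma-graph operator

The two graphs on 15 vertices from the file for the frozen statement `S07079` (periodic gamma-graph
sequences) form a cycle of length exactly two: each is isomorphic to the gamma-graph of the other, and they
are not isomorphic.
-/

set_option autoImplicit false

namespace Pool.Agent.Results.MP_b9dfd5_co.TwoCycle

open Pool.Agent.S07079

variable {V : Type} [DecidableEq V]

/-- `S` is a dominating set of `G`: every vertex outside `S` has a neighbour in `S`. -/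
def Dominating (G : SimpleGraph V) (S : Finset V) : Prop := ∀ v, v ∉ S → ∃ u ∈ S, G.Adj u v

/-- `S` is a `γ`-set of `G`: a dominating set of minimum size. -/
def IsGammaSet (G : SimpleGraph V) (S : Finset V) : Prop :=
  Dominating G S ∧ ∀ T : Finset V, Dominating G T → S.card ≤ T.card

/-- The `γ`-graph of `G`: its vertices are the `γ`-sets, and `S₁ ≠ S₂` are adjacent when sliding one token
of `S₁` along an edge of `G` gives `S₂`. -/
def gammaGraph (G : SimpleGraph V) : SimpleGraph {S : Finset V // IsGammaSet G S} where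
  Adj S₁ S₂ := S₁ ≠ S₂ ∧ ∃ v₁ ∈ S₁.1, ∃ v₂ ∈ S₂.1, G.Adj v₁ v₂ ∧ S₂.1 = insert v₂ (S₁.1.erase v₁)
  symm := ⟨by
    rintro ⟨S₁, h₁⟩ ⟨S₂, h₂⟩ ⟨hne, v₁, hv₁, v₂, hv₂, hadj, he⟩
    simp only at hv₁ hv₂ he
    have hcard : S₁.card = S₂.card := le_antisymm (h₁.2 _ h₂.1) (h₂.2 _ h₁.1)
    have h3 : v₂ ∉ S₁.erase v₁ := by
      intro hmem
      rw [Finset.insert_eq_of_mem hmem] at he
      have := Finset.card_erase_lt_of_mem hv₁
      rw [← he] at this
      omega
    refine ⟨hne.symm, v₂, hv₂, v₁, hv₁, hadj.symm, ?_⟩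
    simp only
    rw [he, Finset.erase_insert h3, Finset.insert_erase hv₁]⟩
  loopless := ⟨fun S h => h.1 rfl⟩

theorem adj_iff (G : SimpleGraph V) (S₁ S₂ : {S : Finset V // IsGammaSet G S}) :
    (gammaGraph G).Adj S₁ S₂ ↔ ∃ u v, u ∈ S₁.1 ∧ v ∉ S₁.1 ∧ G.Adj u v ∧
      S₂.1 = insert v (S₁.1.erase u) := by
  constructor
  · rintro ⟨hne, v₁, hv₁, v₂, hv₂, hadj, he⟩
    refine ⟨v₁, v₂, hv₁, ?_, hadj, he⟩
    intro hmem
    have h3 : v₂ ∈ S₁.1.erase v₁ := Finset.mem_erase.2 ⟨hadj.ne', hmem⟩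
    rw [Finset.insert_eq_of_mem h3] at he
    have h4 := Finset.card_erase_lt_of_mem hv₁
    rw [← he] at h4
    have h5 := S₁.2.2 _ S₂.2.1
    omega
  · rintro ⟨u, v, hu, hv, hadj, he⟩
    refine ⟨?_, u, hu, v, ?_, hadj, he⟩
    · rintro rfl
      apply hv
      rw [he]
      exact Finset.mem_insert_self _ _
    · rw [he]
      exact Finset.mem_insert_self _ _

theorem dom_iff (G : SimpleGraph (Fin 15)) (S : Finset (Fin 15)) : Dominating G S ↔ Dom G S := by
  unfold Dominating Dom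
  constructor
  · intro h v
    by_cases hv : v ∈ S
    · exact Or.inl hv
    · exact Or.inr (h v hv)
  · intro h v hv
    exact (h v).resolve_left hv

theorem isGammaSet_iff (G : SimpleGraph (Fin 15)) (S : Finset (Fin 15)) :
    IsGammaSet G S ↔ (Dom G S ∧ ∀ T, Dom G T → S.card ≤ T.card) := by
  unfold IsGammaSet
  simp only [dom_iff]

/-- A family enumerating the `γ`-sets gives an isomorphism from the `γ`-graph. -/
noncomputable def isoOf (G H : SimpleGraph (Fin 15)) (s : Fin 15 → Finset (Fin 15))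
    (hinj : Function.Injective s)
    (hs : ∀ S, (Dom G S ∧ ∀ T, Dom G T → S.card ≤ T.card) ↔ ∃ i, s i = S)
    (hadj : ∀ a b, H.Adj a b ↔ ∃ u v, u ∈ s a ∧ v ∉ s a ∧ G.Adj u v ∧
      s b = insert v ((s a).erase u)) : H ≃g gammaGraph G where
  toEquiv := Equiv.ofBijective
    (fun i => (⟨s i, (isGammaSet_iff G _).2 ((hs (s i)).2 ⟨i, rfl⟩)⟩ :
      {S : Finset (Fin 15) // IsGammaSet G S}))
    ⟨fun _ _ hij => hinj (congrArg Subtype.val hij), fun ⟨S, hS⟩ => by
      obtain ⟨i, hi⟩ := (hs S).1 ((isGammaSet_iff G S).1 hS)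
      exact ⟨i, Subtype.ext hi⟩⟩
  map_rel_iff' := by
    intro a b
    rw [adj_iff]
    exact (hadj a b).symm

/-- There are two non-isomorphic finite graphs, each of which is isomorphic to the `γ`-graph of the
other. -/
theorem result : ∃ (V W : Type) (_ : Fintype V) (_ : DecidableEq V) (_ : Fintype W)
    (_ : DecidableEq W) (G : SimpleGraph V) (H : SimpleGraph W),
    IsEmpty (G ≃g H) ∧ Nonempty (gammaGraph G ≃g H) ∧ Nonempty (gammaGraph H ≃g G) := by
  refine ⟨Fin 15, Fin 15, inferInstance, inferInstance, inferInstance, inferInstance, gA, gB, ?_,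
    ⟨(isoOf gA gB sA injA critA adjAB).symm⟩, ⟨(isoOf gB gA sB injB critB adjBA).symm⟩⟩
  exact ⟨fun e => notIso.false e.symm⟩

end Pool.Agent.Results.MP_b9dfd5_co.TwoCycle
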